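import Pool.Agent.Helper76.CY.Ex

/-! CY-E1: the cubic form of the explicit tensor; cyclic invariance. -/

namespace Pool.Agent.Helper49.CY

open MvPolynomial Pool.Agent.Helper76.CY

theorem sum_ind (p q r : Fin 10) :
    ∑ i : Fin 10, ∑ j : Fin 10, ∑ k : Fin 10,
      C (if i = p ∧ j = q ∧ k = r then (1 : ℚ) else 0) * X i * X j * X k =
      (X p * X q * X r : MvPolynomial (Fin 10) ℚ) := by
  rw [Finset.sum_eq_single p, Finset.sum_eq_single q, Finset.sum_eq_single r]
  · simp
  · intro b _ hb
    simp [hb]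
  · simp
  · intro b _ hb
    refine Finset.sum_eq_zero fun c _ => ?_
    simp [hb]
  · simp
  · intro b _ hb
    refine Finset.sum_eq_zero fun c _ => Finset.sum_eq_zero fun e _ => ?_
    simp [hb]
  · simp

/-- The sum of the form with integral coefficients. -/
noncomputable def icub (D : Fin 10 → Fin 10 → Fin 10 → ℚ) : MvPolynomial (Fin 10) ℚ :=
  ∑ i, ∑ j, ∑ k, C (D i j k) * X i * X j * X k

theorem icub_add (D E : Fin 10 → Fin 10 → Fin 10 → ℚ) :
    icub (fun i j k => D i j k + E i j k) = icub D + icub E := by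
  simp only [icub, ← Finset.sum_add_distrib]
  refine Finset.sum_congr rfl fun i _ => Finset.sum_congr rfl fun j _ =>
    Finset.sum_congr rfl fun k _ => ?_
  rw [C_add]
  ring

theorem icub_smul (c : ℚ) (D : Fin 10 → Fin 10 → Fin 10 → ℚ) :
    icub (fun i j k => c * D i j k) = C c * icub D := by
  simp only [icub, Finset.mul_sum]
  refine Finset.sum_congr rfl fun i _ => Finset.sum_congr rfl fun j _ =>
    Finset.sum_congr rfl fun k _ => ?_
  rw [C_mul]
  ring

theorem icub_sum (s : Finset (Fin 10)) (D : Fin 10 → Fin 10 → Fin 10 → Fin 10 → ℚ) :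
    icub (fun i j k => ∑ l ∈ s, D l i j k) = ∑ l ∈ s, icub (D l) := by
  classical
  induction s using Finset.induction_on with
  | empty => simp [icub]
  | insert a s ha ih =>
    rw [Finset.sum_insert ha, ← ih, ← icub_add]
    simp only [Finset.sum_insert ha]

theorem icub_sym3 (p q r : Fin 10) :
    icub (fun i j k => (sym3 p q r i j k : ℚ)) = C 6 * (X p * X q * X r) := by
  have h1 : (fun i j k => (sym3 p q r i j k : ℚ)) = fun i j k =>
      (((((if i = p ∧ j = q ∧ k = r then (1 : ℚ) else 0) +
        (if i = p ∧ j = r ∧ k = q then 1 else 0)) +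
        (if i = q ∧ j = p ∧ k = r then 1 else 0)) + (if i = q ∧ j = r ∧ k = p then 1 else 0)) +
        (if i = r ∧ j = p ∧ k = q then 1 else 0)) + (if i = r ∧ j = q ∧ k = p then 1 else 0) := by
    funext i j k
    simp only [sym3]
    push_cast
    ring
  rw [h1, icub_add, icub_add, icub_add, icub_add, icub_add]
  simp only [icub, sum_ind]
  rw [show (C 6 : MvPolynomial (Fin 10) ℚ) = 6 from map_ofNat C 6]
  ring

theorem icub_orb (a b : Fin 10) :
    icub (fun i j k => (orb a b i j k : ℚ)) = C 6 * ∑ l, X l * X (l + a) * X (l + b) := by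
  have h1 : (fun i j k => (orb a b i j k : ℚ)) =
      fun i j k => ∑ l, (sym3 l (l + a) (l + b) i j k : ℚ) := by
    funext i j k
    simp only [orb]
    push_cast
    rfl
  rw [h1, icub_sum, Finset.mul_sum]
  exact Finset.sum_congr rfl fun l _ => icub_sym3 _ _ _

theorem cubic_Dex (u v : ℤ) : cubic (Dex u v) = C 6 * Fex u v := by
  have h1 : Dex u v = fun i j k => (((orb 3 3 i j k : ℚ) + (-1) * (orb 1 4 i j k : ℚ)) +
      (orb 2 6 i j k : ℚ)) + (u : ℚ) * (orb 2 7 i j k : ℚ) + (v : ℚ) * (orb 3 6 i j k : ℚ) := by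
    funext i j k
    simp only [Dex]
    push_cast
    ring
  have h2 : cubic (Dex u v) = icub (Dex u v) := rfl
  rw [h2, h1, icub_add, icub_add, icub_add, icub_add, icub_smul, icub_smul, icub_smul]
  simp only [icub_orb, Fex, Finset.mul_sum, ← Finset.sum_add_distrib]
  refine Finset.sum_congr rfl fun l _ => ?_
  simp only [C_neg, C_1]
  ring

theorem sym3_shift (p q r i j k : Fin 10) :
    sym3 (p + 1) (q + 1) (r + 1) (i + 1) (j + 1) (k + 1) = sym3 p q r i j k := by
  simp only [sym3, add_left_inj]

theorem orb_shift (a b i j k : Fin 10) : orb a b (i + 1) (j + 1) (k + 1) = orb a b i j k := by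
  simp only [orb]
  rw [← Equiv.sum_comp (Equiv.addRight (1 : Fin 10))]
  refine Finset.sum_congr rfl fun l _ => ?_
  rw [Equiv.coe_addRight, add_right_comm l 1 a, add_right_comm l 1 b, sym3_shift]

theorem shift_Dex (u v : ℤ) : shift (Dex u v) = Dex u v := by
  funext i j k
  simp only [shift, Dex, orb_shift]

end Pool.Agent.Helper49.CY
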