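import Pool.Agent.Helper76.CY.Lin

/-! CY-4b: a homogeneous form vanishing at all powers of a multiplicatively distinct tuple is zero. -/

namespace Pool.Agent.Helper49.CY

open MvPolynomial

theorem form_zero {M : Type*} [Field M] (μ : Fin 11 → M)
    (hind : ∀ a b : Fin 11 → ℕ, ∑ i, a i = ∑ i, b i → ∏ i, μ i ^ a i = ∏ i, μ i ^ b i → a = b)
    (G : MvPolynomial (Fin 11) M) (d : ℕ) (hG : G.IsHomogeneous d)
    (h : ∀ n : ℕ, eval (fun i => μ i ^ n) G = 0) : G = 0 := by
  classical
  have hdeg : ∀ m ∈ G.support, ∑ i, m i = d := by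
    intro m hm
    have h1 := hG (mem_support_iff.mp hm)
    simpa [Finsupp.weight_apply, Finsupp.sum_fintype] using h1
  have inj : Function.Injective (fun m : G.support =>
      powersHom M (∏ i, μ i ^ (m : Fin 11 →₀ ℕ) i)) := by
    intro m m' hmm
    have h1 := (powersHom M).injective hmm
    have h2 := hind (fun i => (m : Fin 11 →₀ ℕ) i) (fun i => (m' : Fin 11 →₀ ℕ) i)
      ((hdeg _ m.2).trans (hdeg _ m'.2).symm) h1
    apply Subtype.ext
    exact DFunLike.coe_injective h2
  have li := (linearIndependent_monoidHom (Multiplicative ℕ) M).comp _ inj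
  rw [Fintype.linearIndependent_iff] at li
  have key := li (fun m : G.support => G.coeff (m : Fin 11 →₀ ℕ)) (by
    funext n
    have h1 := h (Multiplicative.toAdd n)
    rw [eval_eq'] at h1
    rw [← Finset.sum_coe_sort] at h1
    simp only [Finset.sum_apply, Pi.smul_apply, Function.comp, smul_eq_mul, Pi.zero_apply,
      powersHom_apply]
    rw [← h1]
    refine Finset.sum_congr rfl fun m _ => ?_
    congr 1
    rw [← Finset.prod_pow]
    exact Finset.prod_congr rfl fun i _ => by rw [← pow_mul, ← pow_mul, mul_comm])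
  ext m
  by_cases hm : m ∈ G.support
  · simpa using key ⟨m, hm⟩
  · simpa using hm

end Pool.Agent.Helper49.CY
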